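import Pool.Agent.helper45.BR.Spec

/-!
# Project br, module LIM
-/

set_option autoImplicit false

open Complex Metric Set Filter Topology MeasureTheory MPS Pool.Agent.helper98.ILF
  Pool.Agent.helper16.Multibrot

noncomputable section

namespace BR

theorem LIM_sep (S : Set ℂ) (hS : S.Finite) :
    ∃ δ > (0 : ℝ), ∀ p ∈ S, ∀ q ∈ S, p ≠ q → δ ≤ dist p q := by
  have h : ∀ᶠ δ in 𝓝[>] (0 : ℝ), ∀ p ∈ S, ∀ q ∈ S, p ≠ q → δ ≤ dist p q := by
    rw [Filter.eventually_all_finite hS]
    intro p _
    rw [Filter.eventually_all_finite hS]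
    intro q _
    by_cases hpq : p = q
    · exact Filter.Eventually.of_forall fun δ h => absurd hpq h
    · have h1 : ∀ᶠ δ in 𝓝 (0 : ℝ), δ < dist p q := Iio_mem_nhds (dist_pos.2 hpq)
      filter_upwards [h1.filter_mono nhdsWithin_le_nhds] with δ hδ _
      exact hδ.le
  obtain ⟨δ, h1, h2⟩ := (h.and self_mem_nhdsWithin).exists
  exact ⟨δ, h2, h1⟩

theorem LIM_near (G : ℂ → ℂ) (x : ℕ → ℂ) (C : Set ℂ) (hG : Continuous G) (hC : IsCompact C)
    (hxC : ∀ k, x k ∈ C) (hx : ∀ k, x (k + 1) = G (x k))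
    (hd : Tendsto (fun k => x (k + 1) - x k) atTop (𝓝 0)) (ε : ℝ) (hε : 0 < ε) :
    ∀ᶠ k in atTop, ∃ p ∈ {z ∈ C | G z = z}, dist (x k) p < ε := by
  by_contra hcon
  rw [Filter.not_eventually] at hcon
  set C' : Set ℂ := C \ ⋃ p ∈ {z ∈ C | G z = z}, ball p ε with hC'
  have hC'c : IsCompact C' := hC.diff (isOpen_biUnion fun p _ => isOpen_ball)
  have hfr : ∃ᶠ k in atTop, x k ∈ C' := by
    refine hcon.mono fun k hk => ?_
    refine ⟨hxC k, ?_⟩
    intro h
    rw [mem_iUnion₂] at h
    obtain ⟨p, hp, hpx⟩ := h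
    exact hk ⟨p, hp, hpx⟩
  obtain ⟨a, ha, hcl⟩ := hC'c.exists_mapClusterPt_of_frequently hfr
  have hcont : Continuous fun z => G z - z := hG.sub continuous_id
  have hcl2 : MapClusterPt (G a - a) atTop ((fun z => G z - z) ∘ x) :=
    hcl.tendsto_comp hcont.continuousAt
  have hd2 : Tendsto ((fun z => G z - z) ∘ x) atTop (𝓝 0) := by
    refine hd.congr fun k => ?_
    simp only [Function.comp_apply, hx k]
  have h0 : G a - a = 0 := by
    by_contra hne
    have hdisj := disjoint_nhds_nhds.2 hne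
    have hne2 : (𝓝 (G a - a) ⊓ map ((fun z => G z - z) ∘ x) atTop).NeBot := hcl2
    exact hne2.ne (disjoint_iff.1 (hdisj.mono_right hd2))
  have hfix : a ∈ {z ∈ C | G z = z} := ⟨ha.1, sub_eq_zero.1 h0⟩
  exact ha.2 (mem_iUnion₂.2 ⟨a, hfix, mem_ball_self hε⟩)

theorem LIM : LIM_stmt := by
  intro G x C hG hC hxC hx hfin hd
  obtain ⟨δ, hδ, hsep⟩ := LIM_sep _ hfin
  have hnear := LIM_near G x C hG hC hxC hx hd
  have hd' : ∀ᶠ k in atTop, dist (x (k + 1)) (x k) < δ / 3 := by
    have h1 := (Metric.tendsto_nhds.1 hd) (δ / 3) (by positivity)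
    filter_upwards [h1] with k hk
    rw [dist_zero_right, ← dist_eq_norm] at hk
    exact hk
  obtain ⟨K, hK⟩ := eventually_atTop.1 ((hnear (δ / 3) (by positivity)).and hd')
  obtain ⟨p, hp, hpK⟩ := (hK K le_rfl).1
  have hall : ∀ k, K ≤ k → dist (x k) p < δ / 3 := by
    intro k hk
    induction k, hk using Nat.le_induction with
    | base => exact hpK
    | succ k hk ih =>
      obtain ⟨q, hq, hqk⟩ := (hK (k + 1) (hk.trans (Nat.le_succ k))).1
      have h2 := (hK k hk).2
      have h3 : dist q p < δ := by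
        calc dist q p ≤ dist q (x (k + 1)) + dist (x (k + 1)) p := dist_triangle _ _ _
          _ ≤ dist q (x (k + 1)) + (dist (x (k + 1)) (x k) + dist (x k) p) := by
              gcongr
              exact dist_triangle _ _ _
          _ < δ := by
              rw [dist_comm q]
              linarith
      have h4 : q = p := by
        by_contra hne
        exact absurd (hsep q hq p hp hne) (not_le.2 h3)
      rw [h4] at hqk
      exact hqk
  refine ⟨p, hp.1, hp.2, ?_⟩
  rw [Metric.tendsto_nhds]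
  intro ε hε
  filter_upwards [hnear (min ε (δ / 3)) (by positivity), eventually_ge_atTop K] with k h1 h2
  obtain ⟨q, hq, hqk⟩ := h1
  have h3 : dist q p < δ := by
    have e1 := hall k h2
    have e2 : dist (x k) q < δ / 3 := hqk.trans_le (min_le_right _ _)
    calc dist q p ≤ dist q (x k) + dist (x k) p := dist_triangle _ _ _
      _ < δ := by
        rw [dist_comm q]
        linarith
  have h4 : q = p := by
    by_contra hne
    exact absurd (hsep q hq p hp hne) (not_le.2 h3)
  rw [h4] at hqk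
  exact hqk.trans_le (min_le_left _ _)

end BR
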